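import Pool.Agent.W54.CL.All
import Pool.Agent.W320.CL.GEN

/-!
# Closures of almost all integer twists of a group of points of `R_{K/ℚ}(G_m)`

Let `K` be a number field of degree `n` and `A = R_{K/ℚ}(G_m)`, so `A(ℚ) = Kˣ` and
`A(ℝ) = (K ⊗ ℝ)ˣ`, the unit group of `mixedSpace K = ℝ ^ r₁ × ℂ ^ r₂`. Let `α_1, …, α_l ∈ Kˣ`. For
almost all `a ∈ [1, x] ^ l` (all but `ε x ^ l` for `x ≥ x₀(n, l, ε)`, uniformly in `K` and `α`) every
subgroup of the group generated by the `a_j α_j` is discrete or its closure in `A(ℝ)` contains all
positive real numbers; the closure of the whole group is that of `ℝ_{>0} ⟨α_1, …, α_l⟩` (the largest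
possible), except perhaps if the group is discrete and `l ≤ r₁ + r₂`; and if `n = 2` the identity
component of the closure of every subgroup is `1`, the identity component `ℝ_{>0}` of `G_m(ℝ)` or the
identity component of `A(ℝ)`.

The proof: if the closure contains a line `V` but not `ℝ_{>0}`, the closed subgroup theorem and
Cramer's rule give linear relations, with coefficients in a space of dimension bounded in terms of
`n` and `l` over the algebraic numbers, between the numbers `log a_j` and `1`; almost all tuples have
no such relation by Baker's theorem and the density theorem of `Pool.Agent.W245.TupleOver` (starting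
files). If there is none, a linear form with integral values on a dense subset of `V` vanishes.
-/

set_option autoImplicit false

namespace Pool.Agent.Results.MP_7de521_nt.IntegerTwists

open Module NumberField Topology

/-- `A(ℝ) = (K ⊗ ℝ)ˣ`, the unit group of `ℝ ^ r₁ × ℂ ^ r₂`. -/
abbrev RealPoints (K : Type) [Field K] [NumberField K] : Type := (mixedEmbedding.mixedSpace K)ˣ

/-- The closure in `A(ℝ)` of a subgroup of `A(ℚ) = Kˣ`. -/
def cl (K : Type) [Field K] [NumberField K] (L : Subgroup Kˣ) : Set (RealPoints K) :=
  closure (L.map (Units.map (mixedEmbedding K : K →* mixedEmbedding.mixedSpace K)) :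
    Set (RealPoints K))

/-- The positive real numbers in `A(ℝ)`: the identity component of `G_m(ℝ)`. -/
def posReals (K : Type) [Field K] [NumberField K] : Set (RealPoints K) :=
  {u | ∃ s : ℝ, 0 < s ∧ (u : mixedEmbedding.mixedSpace K) = s • 1}

/-- The identity is isolated in `H`; a subgroup with this property is discrete. -/
def Isolated {G : Type} [Group G] [TopologicalSpace G] (H : Set G) : Prop :=
  ∃ U ∈ 𝓝 (1 : G), ∀ u ∈ H, u ∈ U → u = 1

/-- The group generated by the `a j * α j`. -/
def twist {K : Type} [Field K] {l : ℕ} (α : Fin l → Kˣ) (a : Fin l → ℕ) : Subgroup Kˣ :=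
  Subgroup.closure {y : Kˣ | ∃ j, (y : K) = a j * α j}

/-- The group of all `s z` with `s` a positive real number and `z` in the group generated by the
`α j`. -/
def posTimes (K : Type) [Field K] [NumberField K] {l : ℕ} (α : Fin l → Kˣ) : Set (RealPoints K) :=
  {u | ∃ s : ℝ, 0 < s ∧ ∃ z ∈ Subgroup.closure (Set.range α),
    (u : mixedEmbedding.mixedSpace K) = s • mixedEmbedding K (z : Kˣ)}

/-- (1) every subgroup of the twisted group is discrete or its closure contains `ℝ_{>0}`. -/
def AllSubgroups (K : Type) [Field K] [NumberField K] {l : ℕ} (α : Fin l → Kˣ) (a : Fin l → ℕ) :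
    Prop :=
  ∀ L ≤ twist α a, Isolated (cl K L) ∨ posReals K ⊆ cl K L

/-- (2) the closure of the twisted group is the closure of `ℝ_{>0} ⟨α_1, …, α_l⟩`, or the twisted
group is discrete and `l` is at most the number of infinite places. -/
def LargestClosure (K : Type) [Field K] [NumberField K] {l : ℕ} (α : Fin l → Kˣ)
    (a : Fin l → ℕ) : Prop :=
  cl K (twist α a) = closure (posTimes K α) ∨
    Isolated (cl K (twist α a)) ∧ l ≤ Fintype.card (InfinitePlace K)

/-- (3) the identity component of the closure of every subgroup of the twisted group is trivial,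
`ℝ_{>0}`, or the identity component of `A(ℝ)`. -/
def ExpectedAnswer (K : Type) [Field K] [NumberField K] {l : ℕ} (α : Fin l → Kˣ)
    (a : Fin l → ℕ) : Prop :=
  ∀ L ≤ twist α a, connectedComponentIn (cl K L) 1 = {1} ∨
    connectedComponentIn (cl K L) 1 = posReals K ∨
    connectedComponentIn (cl K L) 1 = connectedComponent 1

open Classical in
/-- **Main result.** -/
theorem result (n l : ℕ) (ε : ℝ) (hε : 0 < ε) :
    ∃ x₀ : ℕ, ∀ x ≥ x₀, ∀ (K : Type) [Field K] [NumberField K], finrank ℚ K = n →
      ∀ α : Fin l → Kˣ,
      (((Fintype.piFinset fun _ : Fin l => Finset.Icc 1 x).filter fun a =>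
        ¬ (AllSubgroups K α a ∧ LargestClosure K α a ∧ (n = 2 → ExpectedAnswer K α a))).card : ℝ) ≤
        ε * (x : ℝ) ^ l := by
  obtain ⟨x₀, hx₀⟩ :=
    Pool.Agent.W54.CL.final2 Pool.Agent.W320.CL.main Pool.Agent.W320.CL.pow n l ε hε
  refine ⟨x₀, fun x hx K _ _ hn α => ?_⟩
  refine le_trans (le_of_eq ?_) (hx₀ x hx K hn α)
  congr 2
  exact Finset.filter_congr fun a _ => Iff.rfl

end Pool.Agent.Results.MP_7de521_nt.IntegerTwists
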